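import Pool.Agent.V11327.WBmain

/-!
Choice on Baire space is not Weihrauch reducible to the Cantor-Bendixson problem `CB` on Baire
space, nor to `ScList`; not even by continuous maps. (Definitions in `Pool.Agent.V11327.WBdefs`.)
-/

set_option autoImplicit false

namespace Pool.Agent.Results.MP_88baa4_lc.ChoiceNotBelowCB

open Pool.Agent.V11327.WB

/-- Both questions have a negative answer: `C ≰ CB` and `C ≰ ScList`, for Weihrauch reducibility
and also for continuous Weihrauch reducibility. -/
theorem result :
    (¬ WReducible choiceBaire cbProb ∧ ¬ WReducible choiceBaire scList) ∧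
      ¬ ContReducible choiceBaire cbProb ∧ ¬ ContReducible choiceBaire scList :=
  have h1 : ¬ ContReducible choiceBaire cbProb := not_contReducible
  have h2 : ¬ ContReducible choiceBaire scList := fun h => h1 (contReducible_of_scList h)
  ⟨⟨fun h => h1 h.cont, fun h => h2 h.cont⟩, h1, h2⟩

end Pool.Agent.Results.MP_88baa4_lc.ChoiceNotBelowCB
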